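import Pool.Agent.H979.BK.Stm

set_option autoImplicit false

/-! # Project BK: contraction of the distance -/

open Filter Topology Finset Pool.Agent.H979.BK

namespace Pool.Agent.H397.BK

variable {d n : ℕ}

/-- difference of the indicator functions of the colour `j` -/
noncomputable def aa (c c' : Ball d n → Fin d) (j : Fin d) (b : Ball d n) : ℝ :=
  (if c b = j then 1 else 0) - (if c' b = j then 1 else 0)

/-- indicator function of `l` -/
noncomputable def hh (l i : Fin d) : ℝ := if i = l then 1 else 0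

theorem cnt_sub (c c' u : Ball d n → Fin d) (l j : Fin d) :
    ((cnt c u l j : ℕ) : ℝ) - ((cnt c' u l j : ℕ) : ℝ) = ∑ b, aa c c' j b * hh l (u b) := by
  have h : ∀ c'' : Ball d n → Fin d, ((cnt c'' u l j : ℕ) : ℝ) =
      ∑ b, (if c'' b = j then (1 : ℝ) else 0) * hh l (u b) := by
    intro c''
    unfold cnt hh
    rw [Finset.card_filter]
    push_cast
    refine Finset.sum_congr rfl fun b _ => ?_
    by_cases h1 : u b = l <;> by_cases h2 : c'' b = j <;> simp [h1, h2]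
  rw [h, h, ← Finset.sum_sub_distrib]
  refine Finset.sum_congr rfl fun b _ => ?_
  unfold aa
  ring

theorem mulVec_hh (M : Matrix (Fin d) (Fin d) ℝ) (l i : Fin d) : M.mulVec (hh l) i = M i l := by
  unfold Matrix.mulVec dotProduct hh
  simp

theorem mean_eq (c c' : Ball d n → Fin d) (M : Matrix (Fin d) (Fin d) ℝ) (l j : Fin d) :
    ∑ b : Ball d n, aa c c' j b * M.mulVec (hh l) b.1 =
      Matrix.vecMul (fun i => ((cnt c Prod.fst i j : ℕ) : ℝ) - ((cnt c' Prod.fst i j : ℕ) : ℝ)) M l := by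
  unfold Matrix.vecMul dotProduct
  simp_rw [cnt_sub c c' Prod.fst, mulVec_hh, Finset.sum_mul]
  rw [Finset.sum_comm]
  refine Finset.sum_congr rfl fun b _ => ?_
  unfold hh
  simp

theorem zero_sum (c c' : Ball d n → Fin d) (hc : Bal c) (hc' : Bal c') (j : Fin d) :
    ∑ i, (((cnt c Prod.fst i j : ℕ) : ℝ) - ((cnt c' Prod.fst i j : ℕ) : ℝ)) = 0 := by
  simp_rw [cnt_sub c c' Prod.fst]
  rw [Finset.sum_comm]
  have h1 : ∀ b : Ball d n, ∑ i, aa c c' j b * hh i b.1 = aa c c' j b := by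
    intro b
    unfold hh
    simp
  simp_rw [h1]
  unfold aa
  rw [Finset.sum_sub_distrib]
  have h2 : ∀ c'' : Ball d n → Fin d, Bal c'' → ∑ b, (if c'' b = j then (1 : ℝ) else 0) = n := by
    intro c'' h
    have h3 := h j
    rw [Finset.card_filter] at h3
    have h4 : ((∑ b, if c'' b = j then 1 else 0 : ℕ) : ℝ) = (n : ℝ) := by rw [h3]
    rw [← h4]
    push_cast
    rfl
  rw [h2 c hc, h2 c' hc', sub_self]

theorem aa_le (c c' : Ball d n → Fin d) (j : Fin d) (b : Ball d n) : |aa c c' j b| ≤ 1 := by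
  unfold aa
  split_ifs <;> simp

theorem hh_le (l i : Fin d) : |hh l i| ≤ 1 := by
  unfold hh
  split_ifs <;> simp

open Classical in
theorem card_aa (c c' : Ball d n → Fin d) (j : Fin d) :
    (univ.filter fun b => aa c c' j b ≠ 0).card ≤ dif c c' := by
  unfold dif
  apply Finset.card_le_card
  intro b hb
  rw [Finset.mem_filter] at hb ⊢
  refine ⟨Finset.mem_univ _, fun h => hb.2 ?_⟩
  unfold aa
  rw [h, sub_self]

/-- the elementary inequality used instead of Cauchy–Schwarz -/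
theorem abs_le_lam (L M lam : ℝ) (hl : 0 < lam) :
    |L| ≤ |M| + lam + (L - M) ^ 2 / (4 * lam) := by
  have h1 : |L| ≤ |M| + |L - M| := by
    have : L = M + (L - M) := by ring
    calc |L| = |M + (L - M)| := by rw [← this]
      _ ≤ |M| + |L - M| := abs_add_le _ _
  have h2 : |L - M| ≤ lam + (L - M) ^ 2 / (4 * lam) := by
    rw [← sub_nonneg]
    have e : lam + (L - M) ^ 2 / (4 * lam) - |L - M| = (2 * lam - |L - M|) ^ 2 / (4 * lam) := by
      rw [← sq_abs (L - M)]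
      field_simp
      ring
    rw [e]
    positivity
  linarith

theorem bk_contr (hA1 : S_A1) (_hB1 : S_B1) (hB2 : S_B2) (hS : S_SPECU) : S_CONTR := by
  intro d μ hd hμ hirr ε hε
  obtain ⟨T, δ1, hT, hδ1, hspec⟩ := hS d μ hd hμ hirr (ε / 2) (by linarith)
  have hT0 : 0 < T := by linarith
  have hd0 : (0 : ℝ) < d := by
    have : 0 < d := by omega
    exact_mod_cast this
  set ρ : ℝ := Real.exp (-(gap μ - ε) * T) with hρ
  set ρ' : ℝ := Real.exp (-(gap μ - ε / 2) * T) with hρ'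
  have hρρ : ρ' < ρ := by
    apply Real.exp_lt_exp.2
    nlinarith
  set θ : ℝ := (ρ - ρ') / (3 * d ^ 2) with hθ
  have hθ0 : 0 < θ := by
    apply div_pos (by linarith) (by positivity)
  refine ⟨T, min δ1 (θ ^ 2 / T), d ^ 2 * (T / θ), hT, lt_min hδ1 (by positivity), by positivity, ?_⟩
  intro n k hk hkn hδ c c' hc hc' hdif
  have hn : 1 ≤ n := hk.trans hkn
  have hn0 : (0 : ℝ) < n := by exact_mod_cast (by omega : 0 < n)
  have hk0 : (0 : ℝ) < k := by exact_mod_cast (by omega : 0 < k)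
  set δ : ℝ := (k : ℝ) / n with hδd
  have hδ0 : 0 < δ := by positivity
  have hδ1' : δ < δ1 := lt_of_lt_of_le hδ (min_le_left _ _)
  have hδ2 : δ ≤ θ ^ 2 / T := (lt_of_lt_of_le hδ (min_le_right _ _)).le
  set m : ℕ := ⌊T / δ⌋₊ with hm
  have hmT : (m : ℝ) ≤ T / δ := Nat.floor_le (by positivity)
  obtain ⟨p, hp0, hp1, -, hpE⟩ := hA1 d n k μ hμ hkn m
  set D : ℝ := (dif c c' : ℝ) with hD
  have hD0 : 0 ≤ D := Nat.cast_nonneg _
  set ℓ : ℝ := ell (cnt c Prod.fst) (cnt c' Prod.fst) with hℓ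
  set P : Matrix (Fin d) (Fin d) ℝ := (AU μ δ) ^ m with hP
  -- one entry
  have key : ∀ l j : Fin d, ∑ u, p u * |((cnt c u l j : ℕ) : ℝ) - ((cnt c' u l j : ℕ) : ℝ)| ≤
      |Matrix.vecMul (fun i => ((cnt c Prod.fst i j : ℕ) : ℝ) - ((cnt c' Prod.fst i j : ℕ) : ℝ)) P l| +
        (3 * θ * D + T / θ) := by
    intro l j
    set M : ℝ := ∑ b : Ball d n, aa c c' j b * P.mulVec (hh l) b.1 with hM
    have hvar := hB2 d n k μ hμ hk hkn m (aa c c' j) (hh l) 1 (aa_le c c' j) (hh_le l)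
    rw [hpE] at hvar
    set V : ℝ := ∑ u, p u * ((∑ b, aa c c' j b * hh l (u b)) - M) ^ 2 with hV
    have hV1 : V ≤ 4 * (T / δ) * (δ * D + (δ * D) ^ 2) := by
      have e1 : (((univ.filter fun b => aa c c' j b ≠ 0).card : ℕ) : ℝ) ≤ D := by
        have := card_aa c c' j
        rw [hD]
        exact_mod_cast this
      refine hvar.trans ?_
      rw [← hδd]
      have e0 : (0 : ℝ) ≤ (((univ.filter fun b => aa c c' j b ≠ 0).card : ℕ) : ℝ) := Nat.cast_nonneg _
      generalize (((univ.filter fun b => aa c c' j b ≠ 0).card : ℕ) : ℝ) = D' at e0 e1 ⊢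
      have e2 : δ * D' + (δ * D') ^ 2 ≤ δ * D + (δ * D) ^ 2 := by
        have e3 : δ * D' ≤ δ * D := mul_le_mul_of_nonneg_left e1 hδ0.le
        have e4 : (δ * D') ^ 2 ≤ (δ * D) ^ 2 := pow_le_pow_left₀ (by positivity) e3 2
        linarith
      have e5 : (0 : ℝ) ≤ m := Nat.cast_nonneg _
      calc 4 * (1 : ℝ) ^ 2 * m * (δ * D' + (δ * D') ^ 2)
          ≤ 4 * (1 : ℝ) ^ 2 * m * (δ * D + (δ * D) ^ 2) :=
            mul_le_mul_of_nonneg_left e2 (by positivity)
        _ = (4 * (δ * D + (δ * D) ^ 2)) * m := by ring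
        _ ≤ (4 * (δ * D + (δ * D) ^ 2)) * (T / δ) :=
            mul_le_mul_of_nonneg_left hmT (by positivity)
        _ = 4 * (T / δ) * (δ * D + (δ * D) ^ 2) := by ring
    set lam : ℝ := θ * D + T / θ with hlam
    have hlam0 : 0 < lam := by
      have h1 : 0 ≤ θ * D := by positivity
      have h2 : 0 < T / θ := by positivity
      linarith
    have h1 : ∑ u, p u * |((cnt c u l j : ℕ) : ℝ) - ((cnt c' u l j : ℕ) : ℝ)| ≤
        |M| + lam + V / (4 * lam) := by
      calc ∑ u, p u * |((cnt c u l j : ℕ) : ℝ) - ((cnt c' u l j : ℕ) : ℝ)|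
          ≤ ∑ u, p u * (|M| + lam + ((∑ b, aa c c' j b * hh l (u b)) - M) ^ 2 / (4 * lam)) := by
            refine Finset.sum_le_sum fun u _ => ?_
            apply mul_le_mul_of_nonneg_left _ (hp0 u)
            rw [cnt_sub]
            exact abs_le_lam _ _ _ hlam0
        _ = (|M| + lam) * ∑ u, p u + V / (4 * lam) := by
            rw [hV, Finset.mul_sum, Finset.sum_div, ← Finset.sum_add_distrib]
            refine Finset.sum_congr rfl fun u _ => ?_
            ring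
        _ = |M| + lam + V / (4 * lam) := by rw [hp1, mul_one]
    have h2 : V / (4 * lam) ≤ 2 * θ * D := by
      rw [div_le_iff₀ (by positivity)]
      have e1 : 4 * (T / δ) * (δ * D + (δ * D) ^ 2) = 4 * T * (D + δ * D ^ 2) := by
        field_simp
      rw [e1] at hV1
      have e2 : T * δ ≤ θ ^ 2 := by
        rw [le_div_iff₀ hT0] at hδ2
        linarith
      have e3 : 2 * θ * D * (4 * lam) = 8 * (θ ^ 2 * D ^ 2) + 8 * (T * D) := by
        have e3' : θ * (T / θ) = T := by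
          field_simp
        calc 2 * θ * D * (4 * lam) = 8 * (θ ^ 2 * D ^ 2) + 8 * (θ * (T / θ) * D) := by
              rw [hlam]
              ring
          _ = _ := by rw [e3']
      rw [e3]
      have e4 : T * δ * D ^ 2 ≤ θ ^ 2 * D ^ 2 := mul_le_mul_of_nonneg_right e2 (sq_nonneg D)
      have e5 : 0 ≤ T * D := by positivity
      have e6 : 0 ≤ θ ^ 2 * D ^ 2 := by positivity
      nlinarith
    have h3 : M = Matrix.vecMul
        (fun i => ((cnt c Prod.fst i j : ℕ) : ℝ) - ((cnt c' Prod.fst i j : ℕ) : ℝ)) P l := by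
      rw [hM, mean_eq]
    rw [← h3]
    refine h1.trans ?_
    rw [hlam]
    linarith
  -- the sum of the entries
  rw [hpE]
  have e1 : ∑ u, p u * ell (cnt c u) (cnt c' u) =
      ∑ l, ∑ j, ∑ u, p u * |((cnt c u l j : ℕ) : ℝ) - ((cnt c' u l j : ℕ) : ℝ)| := by
    unfold ell
    simp_rw [Finset.mul_sum]
    rw [Finset.sum_comm]
    refine Finset.sum_congr rfl fun l _ => ?_
    rw [Finset.sum_comm]
  rw [e1]
  have e2 : ∑ l, ∑ j, ∑ u, p u * |((cnt c u l j : ℕ) : ℝ) - ((cnt c' u l j : ℕ) : ℝ)| ≤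
      ∑ l, ∑ j, (|Matrix.vecMul
        (fun i => ((cnt c Prod.fst i j : ℕ) : ℝ) - ((cnt c' Prod.fst i j : ℕ) : ℝ)) P l| +
        (3 * θ * D + T / θ)) :=
    Finset.sum_le_sum fun l _ => Finset.sum_le_sum fun j _ => key l j
  refine e2.trans ?_
  have e3 : ∑ l : Fin d, ∑ j : Fin d, (|Matrix.vecMul
        (fun i => ((cnt c Prod.fst i j : ℕ) : ℝ) - ((cnt c' Prod.fst i j : ℕ) : ℝ)) P l| +
        (3 * θ * D + T / θ)) =
      (∑ j : Fin d, ∑ l : Fin d, |Matrix.vecMul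
        (fun i => ((cnt c Prod.fst i j : ℕ) : ℝ) - ((cnt c' Prod.fst i j : ℕ) : ℝ)) P l|) +
        d ^ 2 * (3 * θ * D + T / θ) := by
    simp_rw [Finset.sum_add_distrib]
    rw [Finset.sum_comm]
    congr 1
    simp
    ring
  rw [e3]
  have e4 : (∑ j : Fin d, ∑ l : Fin d, |Matrix.vecMul
        (fun i => ((cnt c Prod.fst i j : ℕ) : ℝ) - ((cnt c' Prod.fst i j : ℕ) : ℝ)) P l|) ≤ ρ' * ℓ := by
    have e5 : ρ' * ℓ = ∑ j : Fin d, ρ' *
        ∑ i : Fin d, |((cnt c Prod.fst i j : ℕ) : ℝ) - ((cnt c' Prod.fst i j : ℕ) : ℝ)| := by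
      rw [← Finset.mul_sum, hℓ]
      unfold ell
      rw [Finset.sum_comm]
    rw [e5]
    refine Finset.sum_le_sum fun j _ => ?_
    exact hspec δ hδ0 hδ1' _ (zero_sum c c' hc hc' j)
  have e6 : (d : ℝ) ^ 2 * (3 * θ * D + T / θ) ≤ (ρ - ρ') * ℓ + d ^ 2 * (T / θ) := by
    have e7 : (d : ℝ) ^ 2 * (3 * θ) = ρ - ρ' := by
      rw [hθ]
      field_simp
    have e8 : (ρ - ρ') * D ≤ (ρ - ρ') * ℓ := mul_le_mul_of_nonneg_left hdif (by linarith)
    calc (d : ℝ) ^ 2 * (3 * θ * D + T / θ) = (d : ℝ) ^ 2 * (3 * θ) * D + d ^ 2 * (T / θ) := by ring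
      _ = (ρ - ρ') * D + d ^ 2 * (T / θ) := by rw [e7]
      _ ≤ _ := by linarith
  calc _ ≤ ρ' * ℓ + ((ρ - ρ') * ℓ + d ^ 2 * (T / θ)) := add_le_add e4 e6
    _ = ρ * ℓ + d ^ 2 * (T / θ) := by ring

end Pool.Agent.H397.BK

theorem Pool.Agent.H397.bk_contr (hA1 : S_A1) (hB1 : S_B1) (hB2 : S_B2) (hS : S_SPECU) : S_CONTR :=
  Pool.Agent.H397.BK.bk_contr hA1 hB1 hB2 hS
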