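import Pool.Agent.H867.FT.Gen7
import Pool.Agent.H997.FT867LOC

/-!
# NAG: Nagata's ring `R(Z)` (helper397)
-/

set_option autoImplicit false

namespace Pool.Agent.H397.FT867NAG

open Polynomial Pool.Agent.H867.FT

/-! ### Finite ring homomorphisms -/

section fin

variable {A B J : Type} [CommRing A] [CommRing B] [Fintype J]

/-- the combinations of the `c j` -/
def T (f : A →+* B) (c : J → B) : AddSubmonoid B where
  carrier := {y | ∃ a : J → A, y = ∑ j, f (a j) * c j}
  zero_mem' := ⟨0, by simp⟩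
  add_mem' := by
    rintro x y ⟨a, rfl⟩ ⟨b, rfl⟩
    refine ⟨a + b, ?_⟩
    rw [← Finset.sum_add_distrib]
    refine Finset.sum_congr rfl fun j _ => ?_
    rw [Pi.add_apply, map_add, add_mul]

theorem T_mul {f : A →+* B} {c : J → B} (a : A) {y : B} (hy : y ∈ T f c) : f a * y ∈ T f c := by
  obtain ⟨b, rfl⟩ := hy
  refine ⟨fun j => a * b j, ?_⟩
  rw [Finset.mul_sum]
  refine Finset.sum_congr rfl fun j _ => ?_
  rw [map_mul, mul_assoc]

theorem T_gen [DecidableEq J] (f : A →+* B) (c : J → B) (j : J) : c j ∈ T f c := by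
  refine ⟨Pi.single j 1, ?_⟩
  rw [Finset.sum_eq_single j]
  · rw [Pi.single_eq_same, map_one, one_mul]
  · intro i _ hi
    rw [Pi.single_eq_of_ne hi, map_zero, zero_mul]
  · intro h
    exact absurd (Finset.mem_univ j) h

theorem finite_of_T {f : A →+* B} {c : J → B} (h : ∀ x, x ∈ T f c) : f.Finite := by
  classical
  letI : Algebra A B := f.toAlgebra
  change Module.Finite A B
  refine ⟨⟨Finset.univ.image c, ?_⟩⟩
  rw [eq_top_iff]
  rintro x -
  obtain ⟨a, rfl⟩ := h x
  refine Submodule.sum_mem _ fun j _ => ?_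
  have h1 : f (a j) * c j = a j • c j := rfl
  rw [h1]
  apply Submodule.smul_mem
  apply Submodule.subset_span
  rw [Finset.coe_image]
  exact ⟨j, by simp, rfl⟩

theorem exists_of_finite {f : A →+* B} (h : f.Finite) :
    ∃ (n : ℕ) (c : Fin n → B), ∀ x, ∃ a : Fin n → A, x = ∑ j, f (a j) * c j := by
  letI : Algebra A B := f.toAlgebra
  have h1 : Module.Finite A B := h
  obtain ⟨n, c, hc⟩ := Module.Finite.exists_fin (R := A) (M := B)
  refine ⟨n, c, fun x => ?_⟩
  have h2 : x ∈ Submodule.span A (Set.range c) := by rw [hc]; trivial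
  obtain ⟨a, ha⟩ := (Submodule.mem_span_range_iff_exists_fun A).1 h2
  exact ⟨a, ha.symm⟩

end fin

/-! ### Splittings of polynomial rings -/

section split

variable {R : Type} [CommRing R]

/-- the extension of a splitting to the polynomial ring -/
noncomputable def ext (q : ℕ) (φ : R →+ R) (h : R[X]) : R[X] :=
  ∑ k ∈ Finset.range (h.natDegree + 1), monomial k (φ (h.coeff (q * k)))

theorem ext_coeff {q : ℕ} (hq : 1 ≤ q) (φ : R →+ R) (h : R[X]) (k : ℕ) :
    (ext q φ h).coeff k = φ (h.coeff (q * k)) := by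
  unfold ext
  rw [finsetSum_coeff]
  simp only [coeff_monomial]
  rw [Finset.sum_ite_eq' (Finset.range (h.natDegree + 1)) k]
  split_ifs with h1
  · rfl
  · rw [Finset.mem_range, not_lt] at h1
    have h2 : h.natDegree < q * k := by nlinarith
    rw [coeff_eq_zero_of_natDegree_lt h2, map_zero]

/-- the additive map -/
noncomputable def extHom {q : ℕ} (hq : 1 ≤ q) (φ : R →+ R) : R[X] →+ R[X] where
  toFun := ext q φ
  map_zero' := by
    ext k
    rw [ext_coeff hq, coeff_zero, map_zero, coeff_zero]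
  map_add' f g := by
    ext k
    rw [ext_coeff hq, coeff_add, coeff_add, map_add, ext_coeff hq, ext_coeff hq]

theorem extHom_coeff {q : ℕ} (hq : 1 ≤ q) (φ : R →+ R) (h : R[X]) (k : ℕ) :
    (extHom hq φ h).coeff k = φ (h.coeff (q * k)) := ext_coeff hq φ h k

theorem splits_C (p : ℕ) [Fact p.Prime] [CharP R p] (e : ℕ) {f : R} (h : FSplits R (p ^ e) f) :
    FSplits R[X] (p ^ e) (C f) := by
  obtain ⟨φ, hφ, hf⟩ := h
  have hq : 1 ≤ p ^ e := Nat.one_le_pow _ _ (Fact.out (p := p.Prime)).pos
  refine ⟨extHom hq φ, ?_, ?_⟩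
  · intro g h
    induction g using Polynomial.induction_on' with
    | add g₁ g₂ h₁ h₂ => rw [add_pow_char_pow, add_mul, map_add, h₁, h₂, add_mul]
    | monomial n r =>
      ext k
      have e1 : (monomial n r) ^ (p ^ e) * h = C (r ^ p ^ e) * (X ^ (p ^ e * n) * h) := by
        rw [← C_mul_X_pow_eq_monomial, mul_pow, ← C_pow, ← pow_mul, mul_comm n, mul_assoc]
      have e2 : monomial n r * extHom hq φ h = C r * (X ^ n * extHom hq φ h) := by
        rw [← C_mul_X_pow_eq_monomial, mul_assoc]
      rw [extHom_coeff, e1, e2, coeff_C_mul, coeff_C_mul, coeff_X_pow_mul', coeff_X_pow_mul',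
        hφ, extHom_coeff]
      have e3 : p ^ e * n ≤ p ^ e * k ↔ n ≤ k := Nat.mul_le_mul_left_iff (by omega)
      by_cases h1 : n ≤ k
      · rw [if_pos h1, if_pos (e3.2 h1), Nat.mul_sub]
      · rw [if_neg h1, if_neg (fun h2 => h1 (e3.1 h2)), map_zero]
  · ext k
    rw [extHom_coeff, coeff_C, coeff_one]
    by_cases h1 : k = 0
    · rw [h1, mul_zero, if_pos rfl, if_pos rfl, hf]
    · have h2 : p ^ e * k ≠ 0 := Nat.mul_ne_zero (by omega) h1
      rw [if_neg h2, map_zero, if_neg]
      exact h1

end split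

theorem nag : S_NAG := by
  intro p hp R A _ _ _ _ _ _ _ hP hloc
  have hpp : p.Prime := Fact.out
  set P : Ideal R[X] := (IsLocalRing.maximalIdeal R).map (Polynomial.C : R →+* R[X]) with hPdef
  have := hP
  have : IsLocalization.AtPrime A P := hloc
  have hmemP : ∀ f : R[X], f ∈ P ↔ ∀ n, f.coeff n ∈ IsLocalRing.maximalIdeal R := fun f =>
    Ideal.mem_map_C_iff
  have hmem : ∀ f : R[X], algebraMap R[X] A f ∈ IsLocalRing.maximalIdeal A ↔ f ∈ P := fun f =>
    IsLocalization.AtPrime.to_map_mem_maximal_iff A P f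
  have hchar : CharP A p := by
    rw [CharP.charP_iff_prime_eq_zero hpp]
    have h1 : ((p : ℕ) : R[X]) = 0 := CharP.cast_eq_zero R[X] p
    have h2 := congrArg (algebraMap R[X] A) h1
    rw [map_natCast, map_zero] at h2
    exact h2
  set ρ : R[X] →+* IsLocalRing.ResidueField A :=
    (IsLocalRing.residue A).comp (algebraMap R[X] A) with hρ
  have hρ0 : ∀ f : R[X], ρ f = 0 ↔ f ∈ P := fun f => by
    rw [← hmem, ← IsLocalRing.residue_eq_zero_iff]
    rfl
  refine ⟨IsLocalization.isNoetherianRing P.primeCompl A inferInstance, hchar, ?_, ?_, ?_⟩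
  · -- infinite
    apply Infinite.of_injective (fun n : ℕ => ρ (X ^ n))
    intro i j hij
    by_contra hne
    have h1 : ρ (X ^ i - X ^ j) = 0 := by
      rw [map_sub, sub_eq_zero]
      exact hij
    rw [hρ0, hmemP] at h1
    have h2 := h1 i
    rw [coeff_sub, coeff_X_pow, coeff_X_pow, if_pos rfl, if_neg hne, sub_zero] at h2
    exact (Ideal.ne_top_iff_one _).1 (IsLocalRing.maximalIdeal.isMaximal R).ne_top h2
  · -- F-finite
    intro _ _ hfin
    obtain ⟨n, c, hc⟩ := exists_of_finite hfin
    choose r hr using fun j => IsLocalRing.residue_surjective (R := R) (c j)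
    let c' : Fin n × Fin p → IsLocalRing.ResidueField A := fun ji => ρ (C (r ji.1)) * ρ X ^ (ji.2 : ℕ)
    have hfr : ∀ x : IsLocalRing.ResidueField A, frobenius (IsLocalRing.ResidueField A) p x = x ^ p :=
      fun x => rfl
    have hmon : ∀ (m : ℕ) (s : R), ρ (monomial m s) ∈
        T (frobenius (IsLocalRing.ResidueField A) p) c' := by
      intro m s
      obtain ⟨a, ha⟩ := hc (IsLocalRing.residue R s)
      choose b hb using fun j => IsLocalRing.residue_surjective (R := R) (a j)
      have h1 : IsLocalRing.residue R (s - ∑ j, (b j) ^ p * r j) = 0 := by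
        rw [map_sub, map_sum, ha, sub_eq_zero]
        refine Finset.sum_congr rfl fun j _ => ?_
        rw [map_mul, map_pow, hb, hr]
        rfl
      rw [IsLocalRing.residue_eq_zero_iff] at h1
      have h2 : ρ (C (s - ∑ j, (b j) ^ p * r j)) = 0 := by
        rw [hρ0]
        exact Ideal.mem_map_of_mem _ h1
      have h3 : ρ (C s) = ∑ j, ρ (C (b j)) ^ p * ρ (C (r j)) := by
        rw [map_sub, map_sub, sub_eq_zero] at h2
        rw [h2, map_sum, map_sum]
        refine Finset.sum_congr rfl fun j _ => ?_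
        rw [C_mul, C_pow, map_mul, map_pow]
      have h4 : ρ (monomial m s) = ∑ j, frobenius (IsLocalRing.ResidueField A) p
          (ρ (C (b j)) * ρ X ^ (m / p)) * c' (j, ⟨m % p, Nat.mod_lt _ hpp.pos⟩) := by
        rw [← C_mul_X_pow_eq_monomial, map_mul, map_pow, h3, Finset.sum_mul]
        refine Finset.sum_congr rfl fun j _ => ?_
        have h5 : ρ X ^ m = (ρ X ^ (m / p)) ^ p * ρ X ^ (m % p) := by
          rw [← pow_mul, ← pow_add]
          congr 1
          rw [mul_comm]
          exact (Nat.div_add_mod m p).symm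
        rw [h5, hfr, mul_pow]
        ring
      rw [h4]
      refine AddSubmonoid.sum_mem _ fun j _ => ?_
      exact T_mul _ (T_gen _ _ _)
    have hpoly : ∀ f : R[X], ρ f ∈ T (frobenius (IsLocalRing.ResidueField A) p) c' := by
      intro f
      induction f using Polynomial.induction_on' with
      | add g₁ g₂ h₁ h₂ => rw [map_add]; exact AddSubmonoid.add_mem _ h₁ h₂
      | monomial m s => exact hmon m s
    apply finite_of_T (c := c')
    intro x
    obtain ⟨y, rfl⟩ := IsLocalRing.residue_surjective (R := A) x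
    obtain ⟨f, g, rfl⟩ := IsLocalization.exists_mk'_eq P.primeCompl y
    have h1 : ρ (g : R[X]) ≠ 0 := fun h => g.2 ((hρ0 _).1 h)
    have h2 : IsLocalRing.residue A (IsLocalization.mk' A f g) * ρ (g : R[X]) = ρ f := by
      have h3 := congrArg (IsLocalRing.residue A) (IsLocalization.mk'_spec A f g)
      rw [map_mul] at h3
      exact h3
    have h3 : IsLocalRing.residue A (IsLocalization.mk' A f g) =
        frobenius (IsLocalRing.ResidueField A) p (ρ (g : R[X]))⁻¹ *
          ρ (f * (g : R[X]) ^ (p - 1)) := by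
      rw [hfr, map_mul, map_pow, ← h2, inv_pow]
      have h4 : ρ (g : R[X]) * ρ (g : R[X]) ^ (p - 1) = ρ (g : R[X]) ^ p := by
        rw [← pow_succ']
        congr 1
        have := hpp.pos
        omega
      rw [mul_assoc, h4, mul_comm (IsLocalRing.residue A (IsLocalization.mk' A f g)),
        ← mul_assoc, inv_mul_cancel₀ (pow_ne_zero p h1), one_mul]
    rw [h3]
    exact T_mul _ (hpoly _)
  · -- splittings
    intro t ht
    obtain ⟨e₀, he₀⟩ := ht
    refine ⟨e₀, fun e he => ?_⟩
    obtain ⟨f, hf, hs⟩ := he₀ e he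
    refine ⟨algebraMap R[X] A (C f), ?_, ?_⟩
    · have h1 : (C f : R[X]) ∈ P ^ ⌈t * ((p : ℝ) ^ e - 1)⌉₊ := by
        rw [hPdef, ← Ideal.map_pow]
        exact Ideal.mem_map_of_mem _ hf
      have h2 : P.map (algebraMap R[X] A) ≤ IsLocalRing.maximalIdeal A := by
        rw [Ideal.map_le_iff_le_comap]
        intro g hg
        exact (hmem g).2 hg
      have h3 := Ideal.mem_map_of_mem (algebraMap R[X] A) h1
      rw [Ideal.map_pow] at h3
      exact Ideal.pow_right_mono h2 _ h3
    · exact Pool.Agent.H997.FT867LOC.loc R[X] A P.primeCompl (p ^ e) (C f)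
        (Nat.one_le_pow _ _ hpp.pos) (splits_C p e hs)

end Pool.Agent.H397.FT867NAG
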