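import Pool.Agent.H770.GS.TF

/-!
# TF6: shape of the characteristic function on `[0, π]`
-/

set_option autoImplicit false

open MeasureTheory Set intervalIntegral Filter Topology

namespace Pool.Agent.H397.TF6

open Pool.Agent.H770.GS

/-- `sinc x ≤ sinc (u x)` for `0 ≤ u ≤ 1`, `0 ≤ x ≤ π`. -/
theorem sinc_mul_ge {u x : ℝ} (hu : 0 ≤ u) (hu1 : u ≤ 1) (hx : 0 ≤ x) (hxp : x ≤ Real.pi) :
    Real.sinc x ≤ Real.sinc (u * x) := by
  rcases hx.eq_or_lt with h | h
  · rw [← h, mul_zero]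
  rcases hu.eq_or_lt with h1 | h1
  · rw [← h1, zero_mul, Real.sinc_zero]; exact Real.sinc_le_one x
  have h2 : 0 < u * x := mul_pos h1 h
  rw [Real.sinc_of_ne_zero h.ne', Real.sinc_of_ne_zero h2.ne', div_le_div_iff₀ h h2]
  have h3 : u * Real.sin x ≤ Real.sin (u * x) := by
    have hc := strictConcaveOn_sin_Icc.concaveOn
    have h4 := hc.2 (x := x) (y := 0) ⟨hx, hxp⟩ ⟨le_rfl, Real.pi_pos.le⟩ hu
      (sub_nonneg.2 hu1) (by ring)
    simp only [smul_eq_mul, Real.sin_zero, mul_zero, add_zero] at h4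
    exact h4
  nlinarith [mul_le_mul_of_nonneg_right h3 h.le]

/-- `1 - y²/6 ≤ sinc y`. -/
theorem sinc_ge (y : ℝ) : 1 - y ^ 2 / 6 ≤ Real.sinc y := by
  wlog hy : 0 ≤ y with H
  · have h1 := H (-y) (by linarith)
    rw [Real.sinc_neg, neg_sq] at h1
    exact h1
  rcases hy.eq_or_lt with h | h
  · rw [← h, Real.sinc_zero]; norm_num
  rw [Real.sinc_of_ne_zero h.ne', le_div_iff₀ h]
  have h1 := Real.sin_ge_sub_cube hy
  nlinarith [h1]

theorem sinc_nonneg {x : ℝ} (hx : 0 ≤ x) (hxp : x ≤ Real.pi) : 0 ≤ Real.sinc x := by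
  rcases hx.eq_or_lt with h | h
  · rw [← h, Real.sinc_zero]; norm_num
  rw [Real.sinc_of_ne_zero h.ne']
  exact div_nonneg (Real.sin_nonneg_of_nonneg_of_le_pi hx hxp) hx

theorem cont_w (ε : ℝ) : Continuous fun u : ℝ => Real.exp (-(ε * u ^ 2)) := by fun_prop

theorem cont_k (ε x : ℝ) :
    Continuous fun u : ℝ => u ^ 2 * Real.exp (-(ε * u ^ 2)) * Real.sinc (u * x) := by
  have h := Real.continuous_sinc.comp (continuous_id.mul (continuous_const (y := x)))
  exact ((continuous_pow 2).mul (cont_w ε)).mul h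

theorem cont_h (ε x : ℝ) :
    Continuous fun u : ℝ => u ^ 2 * (1 - u ^ 2) * Real.exp (-(ε * u ^ 2)) * Real.sinc (u * x) := by
  have h := Real.continuous_sinc.comp (continuous_id.mul (continuous_const (y := x)))
  exact (((continuous_pow 2).mul (by fun_prop)).mul (cont_w ε)).mul h

theorem ck_zero (ε : ℝ) : ck ε 0 = ∫ u in (0:ℝ)..1, u ^ 2 * Real.exp (-(ε * u ^ 2)) := by
  simp only [ck, mul_zero, Real.sinc_zero, mul_one]

theorem ch_zero (ε : ℝ) :
    ch ε 0 = ∫ u in (0:ℝ)..1, u ^ 2 * (1 - u ^ 2) * Real.exp (-(ε * u ^ 2)) := by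
  simp only [ch, mul_zero, Real.sinc_zero, mul_one]

/-- The key inequality. -/
theorem key {ε x : ℝ} (hx : 0 ≤ x) (hxp : x ≤ Real.pi) : ck ε 0 * Real.sinc x ≤ ck ε x := by
  rw [ck_zero, ck, ← intervalIntegral.integral_mul_const]
  apply intervalIntegral.integral_mono_on zero_le_one
  · exact (((continuous_pow 2).mul (cont_w ε)).mul continuous_const).intervalIntegrable _ _
  · exact (cont_k ε x).intervalIntegrable _ _
  · intro u hu
    exact mul_le_mul_of_nonneg_left (sinc_mul_ge hu.1 hu.2 hx hxp)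
      (mul_nonneg (sq_nonneg u) (Real.exp_pos _).le)

theorem ck_zero_pos (ε : ℝ) : 0 < ck ε 0 := by
  rw [ck_zero]
  apply intervalIntegral.intervalIntegral_pos_of_pos_on
  · exact ((continuous_pow 2).mul (cont_w ε)).intervalIntegrable _ _
  · intro u hu
    exact mul_pos (pow_pos hu.1 2) (Real.exp_pos _)
  · exact zero_lt_one

theorem ch_zero_pos (ε : ℝ) : 0 < ch ε 0 := by
  rw [ch_zero]
  apply intervalIntegral.intervalIntegral_pos_of_pos_on
  · exact (((continuous_pow 2).mul (by fun_prop)).mul (cont_w ε)).intervalIntegrable _ _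
  · intro u hu
    have h1 : u ^ 2 < 1 := by nlinarith [hu.1, hu.2]
    exact mul_pos (mul_pos (pow_pos hu.1 2) (by linarith)) (Real.exp_pos _)
  · exact zero_lt_one

theorem exp_cmp {ε s t : ℝ} (hε : 0 < ε) :
    (t - s) * (Real.exp (-(ε * t)) - Real.exp (-(ε * s))) ≤ 0 := by
  rcases le_total s t with h | h
  · exact mul_nonpos_of_nonneg_of_nonpos (by linarith) (sub_nonpos.2 (Real.exp_le_exp.2 (by nlinarith)))
  · exact mul_nonpos_of_nonpos_of_nonneg (by linarith) (sub_nonneg.2 (Real.exp_le_exp.2 (by nlinarith)))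

theorem ck_lt {ε : ℝ} (hε : 0 < ε) : 3 * ck ε 0 < zt ε := by
  have h1 : (∫ u in (0:ℝ)..1, (u ^ 2 - 1 / 3) * Real.exp (-(ε * u ^ 2))) <
      ∫ u in (0:ℝ)..1, (u ^ 2 - 1 / 3) * Real.exp (-(ε * (1 / 3))) := by
    apply intervalIntegral.integral_lt_integral_of_continuousOn_of_le_of_exists_lt zero_lt_one
    · exact (Continuous.mul (by fun_prop) (cont_w ε)).continuousOn
    · exact (Continuous.mul (by fun_prop) continuous_const).continuousOn
    · intro u _
      have h2 := exp_cmp (s := 1 / 3) (t := u ^ 2) hε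
      nlinarith [h2]
    · refine ⟨1, ⟨zero_le_one, le_rfl⟩, ?_⟩
      have h3 : Real.exp (-(ε * 1 ^ 2)) < Real.exp (-(ε * (1 / 3))) :=
        Real.exp_lt_exp.2 (by nlinarith)
      nlinarith [h3]
  have h2 : (∫ u in (0:ℝ)..1, (u ^ 2 - 1 / 3) * Real.exp (-(ε * (1 / 3)))) = 0 := by
    rw [intervalIntegral.integral_mul_const, intervalIntegral.integral_sub (by simp) (by simp)]
    rw [integral_pow, intervalIntegral.integral_const]
    norm_num
  have h3 : (∫ u in (0:ℝ)..1, (u ^ 2 - 1 / 3) * Real.exp (-(ε * u ^ 2))) =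
      ck ε 0 - 1 / 3 * zt ε := by
    rw [ck_zero, zt, ← intervalIntegral.integral_const_mul, ← intervalIntegral.integral_sub]
    · congr 1
      funext u
      ring
    · exact ((continuous_pow 2).mul (cont_w ε)).intervalIntegrable _ _
    · exact (continuous_const.mul (cont_w ε)).intervalIntegrable _ _
  rw [h2, h3] at h1
  linarith

theorem mean_le {ε : ℝ} (hε : 0 < ε) :
    (∫ u in (0:ℝ)..1, u ^ 4 * (1 - u ^ 2) * Real.exp (-(ε * u ^ 2))) ≤ 3 / 7 * ch ε 0 := by
  have h1 : (∫ u in (0:ℝ)..1, u ^ 2 * (1 - u ^ 2) * ((u ^ 2 - 3 / 7) * Real.exp (-(ε * u ^ 2)))) ≤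
      ∫ u in (0:ℝ)..1, u ^ 2 * (1 - u ^ 2) * ((u ^ 2 - 3 / 7) * Real.exp (-(ε * (3 / 7)))) := by
    apply intervalIntegral.integral_mono_on zero_le_one
    · exact (Continuous.intervalIntegrable (Continuous.mul (by fun_prop)
        (Continuous.mul (by fun_prop) (cont_w ε))) _ _)
    · exact (Continuous.intervalIntegrable (by fun_prop) _ _)
    · intro u hu
      have h2 := exp_cmp (s := 3 / 7) (t := u ^ 2) hε
      have h3 : 0 ≤ u ^ 2 * (1 - u ^ 2) :=
        mul_nonneg (sq_nonneg u) (by nlinarith [hu.1, hu.2])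
      apply mul_le_mul_of_nonneg_left _ h3
      nlinarith [h2]
  have h2 : (∫ u in (0:ℝ)..1, u ^ 2 * (1 - u ^ 2) * ((u ^ 2 - 3 / 7) *
      Real.exp (-(ε * (3 / 7))))) = 0 := by
    have h4 : ∀ u : ℝ, u ^ 2 * (1 - u ^ 2) * ((u ^ 2 - 3 / 7) * Real.exp (-(ε * (3 / 7)))) =
        (10 / 7 * u ^ 4 - u ^ 6 - 3 / 7 * u ^ 2) * Real.exp (-(ε * (3 / 7))) := fun u => by ring
    simp only [h4]
    rw [intervalIntegral.integral_mul_const, intervalIntegral.integral_sub,
      intervalIntegral.integral_sub, intervalIntegral.integral_const_mul,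
      intervalIntegral.integral_const_mul, integral_pow, integral_pow, integral_pow]
    · norm_num
    all_goals exact Continuous.intervalIntegrable (by fun_prop) _ _
  have h3 : (∫ u in (0:ℝ)..1, u ^ 2 * (1 - u ^ 2) * ((u ^ 2 - 3 / 7) *
      Real.exp (-(ε * u ^ 2)))) =
      (∫ u in (0:ℝ)..1, u ^ 4 * (1 - u ^ 2) * Real.exp (-(ε * u ^ 2))) - 3 / 7 * ch ε 0 := by
    rw [ch_zero, ← intervalIntegral.integral_const_mul, ← intervalIntegral.integral_sub]
    · congr 1
      funext u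
      ring
    · exact Continuous.intervalIntegrable (by fun_prop) _ _
    · exact Continuous.intervalIntegrable (by fun_prop) _ _
  rw [h2, h3] at h1
  linarith

theorem ch_ge {ε : ℝ} (hε : 0 < ε) (x : ℝ) : ch ε 0 * (1 - x ^ 2 / 14) ≤ ch ε x := by
  have h1 : (∫ u in (0:ℝ)..1, u ^ 2 * (1 - u ^ 2) * Real.exp (-(ε * u ^ 2)) *
      (1 - (u * x) ^ 2 / 6)) ≤ ch ε x := by
    rw [ch]
    apply intervalIntegral.integral_mono_on zero_le_one
    · exact Continuous.intervalIntegrable (by fun_prop) _ _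
    · exact (cont_h ε x).intervalIntegrable _ _
    · intro u hu
      apply mul_le_mul_of_nonneg_left (sinc_ge _)
      exact mul_nonneg (mul_nonneg (sq_nonneg u) (by nlinarith [hu.1, hu.2])) (Real.exp_pos _).le
  have h2 : (∫ u in (0:ℝ)..1, u ^ 2 * (1 - u ^ 2) * Real.exp (-(ε * u ^ 2)) *
      (1 - (u * x) ^ 2 / 6)) = ch ε 0 - x ^ 2 / 6 *
      ∫ u in (0:ℝ)..1, u ^ 4 * (1 - u ^ 2) * Real.exp (-(ε * u ^ 2)) := by
    rw [ch_zero, ← intervalIntegral.integral_const_mul, ← intervalIntegral.integral_sub]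
    · congr 1
      funext u
      ring
    · exact Continuous.intervalIntegrable (by fun_prop) _ _
    · exact Continuous.intervalIntegrable (by fun_prop) _ _
  have h3 := mean_le hε
  rw [h2] at h1
  have h4 : x ^ 2 / 6 * (∫ u in (0:ℝ)..1, u ^ 4 * (1 - u ^ 2) * Real.exp (-(ε * u ^ 2))) ≤
      x ^ 2 / 6 * (3 / 7 * ch ε 0) := mul_le_mul_of_nonneg_left h3 (by positivity)
  nlinarith [h1, h4]

theorem tf6 : S_TF6 := by
  intro H ε hε
  obtain ⟨hz, ha, -, -, -, hd, -⟩ := H ε hε
  have hp : 0 < Real.exp (-ε) := Real.exp_pos _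
  have hk0 := ck_zero_pos ε
  have hcf0 : cf ε 0 = 1 := by
    have h1 : (∫ u in (0:ℝ)..1, Real.exp (-(ε * u ^ 2)) * Real.cos (0 * u)) = zt ε := by
      simp only [zero_mul, Real.cos_zero, mul_one, zt]
    rw [cf, h1, div_self hz.ne']
  have hz2 : zt ε = Real.exp (-ε) + 2 * ε * ck ε 0 := by
    have h1 := ha 0
    rw [hcf0, Real.sinc_zero, mul_one, mul_one] at h1
    exact h1
  have hck : ∀ x, 0 ≤ x → x ≤ Real.pi → 0 ≤ ck ε x := fun x h1 h2 =>
    (mul_nonneg hk0.le (sinc_nonneg h1 h2)).trans (key h1 h2)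
  have hsub : interior (Icc 0 Real.pi) ⊆ Icc 0 Real.pi := interior_subset
  have hanti1 : AntitoneOn (fun x => cf ε x * Real.exp (vv ε * x ^ 2 / 2)) (Icc 0 Real.pi) := by
    have hder : ∀ x, HasDerivAt (fun x => cf ε x * Real.exp (vv ε * x ^ 2 / 2))
        (-(x / zt ε * ck ε x) * Real.exp (vv ε * x ^ 2 / 2) +
          cf ε x * (Real.exp (vv ε * x ^ 2 / 2) * (vv ε * x))) x := by
      intro x
      have h1 : HasDerivAt (fun x : ℝ => vv ε * x ^ 2 / 2) (vv ε * x) x := by
        have h2 := ((hasDerivAt_pow 2 x).const_mul (vv ε)).div_const 2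
        have h3 : vv ε * (((2 : ℕ) : ℝ) * x ^ (2 - 1)) / 2 = vv ε * x := by
          norm_num
          ring
        rw [h3] at h2
        exact h2
      exact (hd x).mul h1.exp
    apply antitoneOn_of_deriv_nonpos (convex_Icc _ _)
    · exact fun x _ => (hder x).continuousAt.continuousWithinAt
    · exact fun x _ => (hder x).differentiableAt.differentiableWithinAt
    · intro x hx
      have hx' := hsub hx
      rw [(hder x).deriv]
      have h1 : -(x / zt ε * ck ε x) * Real.exp (vv ε * x ^ 2 / 2) +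
          cf ε x * (Real.exp (vv ε * x ^ 2 / 2) * (vv ε * x)) =
          -(x / zt ε * Real.exp (vv ε * x ^ 2 / 2) *
            (ck ε x - ck ε 0 * cf ε x)) := by
        rw [vv]
        field_simp
        ring
      rw [h1]
      have h2 : 0 ≤ ck ε x - ck ε 0 * cf ε x := by
        have h3 := ha x
        have h4 := key (ε := ε) hx'.1 hx'.2
        have h5 : 0 ≤ zt ε * (ck ε x - ck ε 0 * cf ε x) := by
          have h6 : zt ε * (ck ε x - ck ε 0 * cf ε x) =
              Real.exp (-ε) * (ck ε x - ck ε 0 * Real.sinc x) := by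
            have h7 : zt ε * (ck ε x - ck ε 0 * cf ε x) =
              zt ε * ck ε x - ck ε 0 * (zt ε * cf ε x) := by ring
            rw [h7, h3, hz2]
            ring
          rw [h6]
          exact mul_nonneg hp.le (sub_nonneg.2 h4)
        exact nonneg_of_mul_nonneg_right h5 hz
      have h3 : 0 ≤ x / zt ε * Real.exp (vv ε * x ^ 2 / 2) *
            (ck ε x - ck ε 0 * cf ε x) :=
        mul_nonneg (mul_nonneg (div_nonneg hx'.1 hz.le) (Real.exp_pos _).le) h2
      linarith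
  refine ⟨?_, hanti1, ?_, ?_, ch_ge hε, div_pos hk0 hz, ?_, ch_zero_pos ε⟩
  · intro x hx hxp
    have h1 : 0 ≤ zt ε * (cf ε x - Real.sinc x) := by
      have h2 : zt ε * (cf ε x - Real.sinc x) = 2 * ε * (ck ε x - ck ε 0 * Real.sinc x) := by
        have h3 : zt ε * (cf ε x - Real.sinc x) = zt ε * cf ε x - zt ε * Real.sinc x := by ring
        rw [h3, ha x, hz2]
        ring
      rw [h2]
      exact mul_nonneg (by positivity) (sub_nonneg.2 (key hx hxp))
    have h2 := nonneg_of_mul_nonneg_right h1 hz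
    linarith
  · apply antitoneOn_of_deriv_nonpos (convex_Icc _ _)
    · exact fun x _ => (hd x).continuousAt.continuousWithinAt
    · exact fun x _ => (hd x).differentiableAt.differentiableWithinAt
    · intro x hx
      have hx' := hsub hx
      rw [(hd x).deriv]
      have h1 : 0 ≤ x / zt ε * ck ε x :=
        mul_nonneg (div_nonneg hx'.1 hz.le) (hck x hx'.1 hx'.2)
      linarith
  · intro x hx hxp
    have h1 := hanti1 (a := 0) (b := x) ⟨le_rfl, Real.pi_pos.le⟩ ⟨hx, hxp⟩ hx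
    simp only [hcf0] at h1
    have h2 : Real.exp (vv ε * 0 ^ 2 / 2) = 1 := by norm_num
    rw [h2, mul_one] at h1
    rw [Real.exp_neg, ← one_div, le_div_iff₀ (Real.exp_pos _)]
    exact h1
  · rw [vv, div_lt_iff₀ hz]
    have h1 := ck_lt hε
    linarith

end Pool.Agent.H397.TF6
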